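import Mathlib

set_option autoImplicit false

namespace Pool.Agent.Results.MP_f10132_gt.Example

open TopologicalSpace Set

/-- filters: nonempty upper sets in which any two elements have a lower bound -/
def IsFil {L : Type} [Order.Frame L] (F : Set L) : Prop :=
  F.Nonempty ∧ IsUpperSet F ∧ ∀ a ∈ F, ∀ b ∈ F, ∃ c ∈ F, c ≤ a ∧ c ≤ b

/-- Scott-open sets -/
def ScottOpen {L : Type} [Order.Frame L] (U : Set L) : Prop :=
  IsUpperSet U ∧ ∀ D : Set L, D.Nonempty → DirectedOn (· ≤ ·) D → sSup D ∈ U → ∃ d ∈ D, d ∈ U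

/-- temperate frames -/
def Temperate (L : Type) [Order.Frame L] : Prop :=
  (∀ F G : Set L, IsFil F → ScottOpen F → IsFil G → ScottOpen G →
    ScottOpen {w | ∃ u ∈ F, ∃ v ∈ G, w = u ⊓ v}) ∧ ScottOpen ({⊤} : Set L)

noncomputable def nn : Nucleus (Opens ℝ) where
  toFun U := Uᶜᶜ
  map_inf' := compl_compl_inf_distrib
  idempotent' U := by simp
  le_apply' _ := le_compl_compl

abbrev B := range nn

noncomputable instance fr : Order.Frame (WithTop B) := .ofMinimalAxioms {
  inf_sSup_le_iSup_inf := by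
    intro a s
    by_cases h : ⊤ ∈ s
    · exact le_iSup₂_of_le ⊤ h (by simp)
    cases a with
    | top => simp [sSup_eq_iSup]
    | coe a =>
      have h1 : sSup s ≤ ((sSup {b : B | (b : WithTop B) ∈ s} : B) : WithTop B) := by
        refine sSup_le fun b hb => ?_
        cases b with
        | top => exact absurd hb h
        | coe b => exact WithTop.coe_le_coe.mpr (le_sSup hb)
      refine (inf_le_inf_left _ h1).trans ?_
      rw [← WithTop.coe_inf, inf_sSup_eq]
      refine le_of_forall_ge fun u hu => ?_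
      rw [iSup₂_le_iff] at hu
      cases u with
      | top => exact le_top
      | coe u =>
        refine WithTop.coe_le_coe.mpr (iSup₂_le fun b hb => WithTop.coe_le_coe.mp ?_)
        rw [WithTop.coe_inf]
        exact hu _ hb }

theorem not_prime (p : WithTop B) (h1 : p ≠ ⊤) (h2 : p ≠ ((⊤ : B) : WithTop B)) :
    ∃ a b, ¬ a ≤ p ∧ ¬ b ≤ p ∧ a ⊓ b ≤ p := by
  cases p with
  | top => exact absurd rfl h1
  | coe p =>
    have h3 : p.1ᶜᶜ = p.1 := Nucleus.mem_range.mp p.2
    have h4 : ((p.1ᶜ : Opens ℝ) : Set ℝ).Nonempty := by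
      by_contra hn
      have : p.1ᶜ = ⊥ := Opens.ext (not_nonempty_iff_eq_empty.mp hn)
      rw [this, compl_bot] at h3
      refine h2 (congrArg _ (top_le_iff.mp ?_))
      exact Subtype.coe_le_coe.mp (h3 ▸ le_top)
    obtain ⟨x, y, hxy, hs⟩ := (p.1ᶜ).isOpen.exists_Ioo_subset h4
    have key : ∀ u v : ℝ, x ≤ u → u < v → v ≤ y →
        ¬ ((nn.restrict ⟨Ioo u v, isOpen_Ioo⟩ : B) : WithTop B) ≤ p := by
      intro u v h1 h2 h3 h
      have h5 : (⟨Ioo u v, isOpen_Ioo⟩ : Opens ℝ) ≤ p.1 :=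
        nn.giRestrict.gc.le_iff_le.mp (WithTop.coe_le_coe.mp h)
      have h6 : (⟨Ioo u v, isOpen_Ioo⟩ : Opens ℝ) ≤ p.1ᶜ := (Ioo_subset_Ioo h1 h3).trans hs
      have h7 := (le_inf h5 h6).trans (inf_compl_self p.1).le
      obtain ⟨z, hz⟩ := nonempty_Ioo.mpr h2
      exact h7 hz
    refine ⟨_, _, key x ((x + y) / 2) le_rfl (by linarith) (by linarith),
      key ((x + y) / 2) y (by linarith) (by linarith) le_rfl, ?_⟩
    rw [← WithTop.coe_inf, ← map_inf, WithTop.coe_le_coe]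
    refine nn.giRestrict.gc.le_iff_le.mpr fun z hz => ?_
    exact absurd (hz.1.2.trans hz.2.1) (lt_irrefl _)

theorem fil_cases (F : Set (WithTop B)) (h1 : IsFil F) (h2 : ScottOpen F) :
    F = univ ∨ F = {⊤} := by
  have ht : ⊤ ∈ F := by
    obtain ⟨a, ha⟩ := h1.1
    exact h1.2.1 le_top ha
  by_cases h : ((⊤ : B) : WithTop B) ∈ F
  · left
    by_contra hn
    obtain ⟨u, hu⟩ := (ne_univ_iff_exists_notMem _).mp hn
    obtain ⟨p, _, hp⟩ := zorn_le_nonempty₀ Fᶜ (fun c hc hch y hy =>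
      ⟨sSup c, fun h => by
        obtain ⟨d, hd, hd'⟩ := h2.2 c ⟨y, hy⟩ hch.directedOn h
        exact hc hd hd', fun z hz => le_sSup hz⟩) u hu
    obtain ⟨a, b, ha, hb, hab⟩ := not_prime p (fun e => hp.1 (e ▸ ht)) (fun e => hp.1 (e ▸ h))
    have k : ∀ a, ¬ a ≤ p → a ⊔ p ∈ F := fun a ha => by
      by_contra hn
      exact ha (le_sup_left.trans (hp.2 hn le_sup_right))
    obtain ⟨c, hc, c1, c2⟩ := h1.2.2 _ (k a ha) _ (k b hb)
    refine hp.1 (h1.2.1 ((le_inf c1 c2).trans ?_) hc)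
    rw [← sup_inf_right]
    exact sup_le hab le_rfl
  · right
    refine eq_singleton_iff_unique_mem.mpr ⟨ht, fun a ha => ?_⟩
    cases a with
    | top => rfl
    | coe a => exact absurd (h1.2.1 (WithTop.coe_le_coe.mpr le_top) ha) h

theorem result.{u} : ∃ (L : Type) (_ : Order.Frame L), Temperate L ∧
    ∀ (X : Type u) [TopologicalSpace X], IsEmpty (L ≃o Opens X) := by
  have h0 : ScottOpen ({⊤} : Set (WithTop B)) := by
    refine ⟨fun a b hab ha => top_le_iff.mp (ha ▸ hab), fun D _ _ h => ?_⟩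
    by_contra hn
    have : sSup D ≤ ((⊤ : B) : WithTop B) := sSup_le fun d hd => by
      cases d with
      | top => exact absurd ⟨⊤, hd, rfl⟩ hn
      | coe d => exact WithTop.coe_le_coe.mpr le_top
    rw [h] at this
    exact WithTop.not_top_le_coe _ this
  refine ⟨WithTop B, fr, ⟨fun F G f1 f2 g1 g2 => ?_, h0⟩, fun X _ => ⟨fun e => ?_⟩⟩
  · rcases fil_cases F f1 f2 with rfl | rfl
    · convert f2
      obtain ⟨v, hv⟩ := g1.1
      exact eq_univ_of_forall fun w => ⟨w, trivial, ⊤, g1.2.1 le_top hv, by simp⟩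
    · convert g2
      ext w
      simp
  · have h1 : ¬ e ((⊤ : B) : WithTop B) ≤ ⊥ := by
      rw [← e.map_bot, e.le_iff_le]
      intro h
      have h2 : (⊤ : B) ≤ ⊥ := WithTop.coe_le_coe.mp h
      have h3 : (⊤ : Opens ℝ) ≤ ⊥ᶜᶜ := by
        rw [← map_top nn.restrict, ← map_bot nn.restrict] at h2
        exact nn.giRestrict.gc.le_iff_le.mp h2
      rw [compl_bot, compl_top] at h3
      exact h3 (show (0 : ℝ) ∈ (⊤ : Opens ℝ) from trivial)
    obtain ⟨x, hx, _⟩ := SetLike.not_le_iff_exists.mp h1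
    let P : Opens X := ⟨(closure {x})ᶜ, isClosed_closure.isOpen_compl⟩
    have hP : ∀ U : Opens X, U ≤ P ↔ x ∉ U := fun U =>
      ⟨fun h h' => h h' (subset_closure rfl), fun h y hy h' => by
        obtain ⟨_, h1, rfl⟩ := mem_closure_iff.mp h' U U.isOpen hy
        exact h h1⟩
    obtain ⟨a, b, ha, hb, hab⟩ := not_prime (e.symm P)
      (fun h => (hP ⊤).mp (by rw [← e.map_top, ← h]; simp) trivial)
      (fun h => (hP _).mp (by rw [← h]; simp) hx)
    rw [e.le_symm_apply, hP] at ha hb hab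
    exact hab (by rw [map_inf]; exact ⟨not_not.mp ha, not_not.mp hb⟩)

end Pool.Agent.Results.MP_f10132_gt.Example
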